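import Mathlib
import Pool.Agent.Lib_helper79.Gap.Basic

/-! MODULES J1 and B1: coefficient arrays, their generating functions, truncation. -/

set_option autoImplicit false

open Finset Filter Topology

namespace Pool.Agent.Gap

lemma wt_nonneg (eps : ℝ) (i : ℕ × ℕ) (g g' : ℤ) : 0 ≤ GapKernel.wt eps i g g' :=
  (Real.exp_pos _).le

lemma wt_le_one (eps : ℝ) (heps : 0 ≤ eps) (i : ℕ × ℕ) (g g' : ℤ) (hg : 1 ≤ g) (hg' : 1 ≤ g') :
    GapKernel.wt eps i g g' ≤ 1 := by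
  unfold GapKernel.wt
  rw [Real.exp_le_one_iff]
  have h1 : (1 : ℝ) ≤ g := by exact_mod_cast hg
  have h2 : (1 : ℝ) ≤ g' := by exact_mod_cast hg'
  have h3 : 0 ≤ eps * (i.2 : ℝ) * ((g : ℝ) + (g' : ℝ)) := by positivity
  linarith

/-- the recursive array -/
noncomputable def arr (G : GapKernel) (s : ℕ → ℤ → ℝ) (eps : ℝ) (N : ℕ) (n : ℕ) (g : ℤ) : ℝ :=
  if 1 ≤ g ∧ g ≤ (N : ℤ) then
    s n g + ∑ i ∈ G.S, if _h : 1 ≤ i.1 ∧ i.1 ≤ n then
      ∑ g' ∈ Icc (1 : ℤ) N, G.K i g g' * GapKernel.wt eps i g g' * arr G s eps N (n - i.1) g' else 0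
  else 0
termination_by n
decreasing_by omega

lemma arr_isArr (G : GapKernel) (s : ℕ → ℤ → ℝ) (eps : ℝ) (N : ℕ) :
    IsArr G s eps N (arr G s eps N) := by
  constructor
  · intro n g hg
    rw [arr, if_neg]
    omega
  · intro n g h1 h2
    rw [arr, if_pos ⟨h1, h2⟩]
    congr 1
    refine sum_congr rfl fun i hi => ?_
    have := (G.pos_mem i hi).1
    by_cases h : i.1 ≤ n
    · rw [dif_pos ⟨this, h⟩, if_pos h]
    · rw [dif_neg (by omega), if_neg h]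

lemma arr_nonneg {G : GapKernel} {C0 : ℕ} {s : ℕ → ℤ → ℝ} (hs : IsCap C0 s) {eps : ℝ} {N : ℕ}
    {b : ℕ → ℤ → ℝ} (hb : IsArr G s eps N b) (n : ℕ) : ∀ g, 0 ≤ b n g := by
  induction n using Nat.strong_induction_on with
  | _ n ih =>
    intro g
    by_cases hg : 1 ≤ g ∧ g ≤ (N : ℤ)
    · rw [hb.step n g hg.1 hg.2]
      refine add_nonneg (hs.nonneg n g) (sum_nonneg fun i hi => ?_)
      split_ifs with h
      · refine sum_nonneg fun g' _ => ?_
        exact mul_nonneg (mul_nonneg (G.K_nonneg _ _ _) (wt_nonneg _ _ _ _))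
          (ih _ (by have := (G.pos_mem i hi).1; omega) g')
      · exact le_rfl
    · rw [hb.zero n g (by omega)]

/-- total mass of the array -/
lemma arr_mass {G : GapKernel} {C0 : ℕ} {s : ℕ → ℤ → ℝ} (hs : IsCap C0 s) {eps : ℝ}
    (heps : 0 ≤ eps) {N : ℕ} {b : ℕ → ℤ → ℝ} (hb : IsArr G s eps N b) (n : ℕ) :
    (∑ g ∈ Icc (1 : ℤ) N, b n g) * G.rho ^ n ≤
      ∑ k ∈ range (n + 1), (∑ g ∈ Icc (1 : ℤ) N, s k g) * G.rho ^ k := by
  have hrho := G.rho_pos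
  have hS : ∀ k, 0 ≤ (∑ g ∈ Icc (1 : ℤ) N, s k g) * G.rho ^ k := fun k =>
    mul_nonneg (sum_nonneg fun g _ => hs.nonneg k g) (by positivity)
  induction n using Nat.strong_induction_on with
  | _ n ih =>
    have h1 : (∑ g ∈ Icc (1 : ℤ) N, b n g) = (∑ g ∈ Icc (1 : ℤ) N, s n g) +
        ∑ i ∈ G.S, (if i.1 ≤ n then ∑ g' ∈ Icc (1 : ℤ) N,
          (∑ g ∈ Icc (1 : ℤ) N, G.K i g g' * GapKernel.wt eps i g g') * b (n - i.1) g' else 0) := by
      have h2 : ∀ g ∈ Icc (1 : ℤ) N, b n g = s n g + ∑ i ∈ G.S, if i.1 ≤ n then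
          ∑ g' ∈ Icc (1 : ℤ) N, G.K i g g' * GapKernel.wt eps i g g' * b (n - i.1) g' else 0 := by
        intro g hg
        rw [mem_Icc] at hg
        exact hb.step n g hg.1 hg.2
      rw [sum_congr rfl h2, sum_add_distrib, sum_comm]
      congr 1
      refine sum_congr rfl fun i _ => ?_
      split_ifs with h
      · rw [sum_comm]
        refine sum_congr rfl fun g' _ => ?_
        rw [sum_mul]
      · simp
    rw [h1, add_mul, sum_range_succ, add_comm (∑ k ∈ range n, _)]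
    refine add_le_add le_rfl ?_
    rw [sum_mul]
    have h3 : ∀ i ∈ G.S, (if i.1 ≤ n then ∑ g' ∈ Icc (1 : ℤ) N,
          (∑ g ∈ Icc (1 : ℤ) N, G.K i g g' * GapKernel.wt eps i g g') * b (n - i.1) g' else 0)
          * G.rho ^ n ≤ G.rho ^ i.1 * G.tot i *
            ∑ k ∈ range n, (∑ g ∈ Icc (1 : ℤ) N, s k g) * G.rho ^ k := by
      intro i hi
      have hi1 := (G.pos_mem i hi).1
      have hnn : 0 ≤ ∑ k ∈ range n, (∑ g ∈ Icc (1 : ℤ) N, s k g) * G.rho ^ k :=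
        sum_nonneg fun k _ => hS k
      split_ifs with h
      · have h4 : ∑ g' ∈ Icc (1 : ℤ) N,
          (∑ g ∈ Icc (1 : ℤ) N, G.K i g g' * GapKernel.wt eps i g g') * b (n - i.1) g' ≤
            G.tot i * ∑ g' ∈ Icc (1 : ℤ) N, b (n - i.1) g' := by
          rw [mul_sum]
          refine sum_le_sum fun g' hg' => ?_
          rw [mem_Icc] at hg'
          refine mul_le_mul_of_nonneg_right ?_ (arr_nonneg hs hb _ g')
          refine le_trans (sum_le_sum fun g hg => ?_) (G.sum_K_le' i g' (Icc (1 : ℤ) N))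
          rw [mem_Icc] at hg
          exact mul_le_of_le_one_right (G.K_nonneg _ _ _) (wt_le_one eps heps i g g' hg.1 hg'.1)
        have h5 := ih (n - i.1) (by omega)
        have h6 : ∑ k ∈ range (n - i.1 + 1), (∑ g ∈ Icc (1 : ℤ) N, s k g) * G.rho ^ k ≤
            ∑ k ∈ range n, (∑ g ∈ Icc (1 : ℤ) N, s k g) * G.rho ^ k :=
          sum_le_sum_of_subset_of_nonneg (range_subset_range.2 (by omega)) (fun k _ _ => hS k)
        have h7 : G.rho ^ n = G.rho ^ i.1 * G.rho ^ (n - i.1) := by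
          rw [← pow_add]; congr 1; omega
        have ht := G.tot_nonneg i
        calc (∑ g' ∈ Icc (1 : ℤ) N,
          (∑ g ∈ Icc (1 : ℤ) N, G.K i g g' * GapKernel.wt eps i g g') * b (n - i.1) g') * G.rho ^ n
            ≤ (G.tot i * ∑ g' ∈ Icc (1 : ℤ) N, b (n - i.1) g') * G.rho ^ n :=
              mul_le_mul_of_nonneg_right h4 (by positivity)
          _ = G.rho ^ i.1 * G.tot i *
              ((∑ g' ∈ Icc (1 : ℤ) N, b (n - i.1) g') * G.rho ^ (n - i.1)) := by rw [h7]; ring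
          _ ≤ G.rho ^ i.1 * G.tot i *
              ∑ k ∈ range n, (∑ g ∈ Icc (1 : ℤ) N, s k g) * G.rho ^ k :=
              mul_le_mul_of_nonneg_left (h5.trans h6) (by positivity)
      · rw [zero_mul]
        have ht := G.tot_nonneg i
        positivity
    refine (sum_le_sum h3).trans ?_
    rw [← sum_mul, G.crit', one_mul]

lemma arr_bound {G : GapKernel} {C0 : ℕ} {s : ℕ → ℤ → ℝ} (hs : IsCap C0 s) {eps : ℝ}
    (heps : 0 ≤ eps) {N : ℕ} {b : ℕ → ℤ → ℝ} (hb : IsArr G s eps N b) :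
    ∃ C : ℝ, 0 ≤ C ∧ ∀ n g, b n g * G.rho ^ n ≤ C := by
  have hrho := G.rho_pos
  have hS : ∀ k, 0 ≤ (∑ g ∈ Icc (1 : ℤ) N, s k g) * G.rho ^ k := fun k =>
    mul_nonneg (sum_nonneg fun g _ => hs.nonneg k g) (by positivity)
  refine ⟨∑ k ∈ range (C0 + 1), (∑ g ∈ Icc (1 : ℤ) N, s k g) * G.rho ^ k,
    sum_nonneg fun k _ => hS k, fun n g => ?_⟩
  have h1 : b n g * G.rho ^ n ≤ (∑ g ∈ Icc (1 : ℤ) N, b n g) * G.rho ^ n := by
    refine mul_le_mul_of_nonneg_right ?_ (by positivity)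
    by_cases hg : 1 ≤ g ∧ g ≤ (N : ℤ)
    · exact single_le_sum (f := fun g => b n g) (fun g _ => arr_nonneg hs hb n g)
        (mem_Icc.2 hg)
    · rw [hb.zero n g (by omega)]
      exact sum_nonneg fun g _ => arr_nonneg hs hb n g
  refine h1.trans ((arr_mass hs heps hb n).trans ?_)
  rcases le_total n C0 with h | h
  · exact sum_le_sum_of_subset_of_nonneg (range_subset_range.2 (by omega)) (fun k _ _ => hS k)
  · have h2 : range (C0 + 1) ⊆ range (n + 1) := range_subset_range.2 (by omega)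
    rw [← sum_subset h2]
    intro k hk hk'
    rw [mem_range] at hk hk'
    rw [sum_eq_zero fun g _ => hs.supp_m k g (by omega), zero_mul]

lemma arr_summable {G : GapKernel} {C0 : ℕ} {s : ℕ → ℤ → ℝ} (hs : IsCap C0 s) {eps : ℝ}
    (heps : 0 ≤ eps) {N : ℕ} {b : ℕ → ℤ → ℝ} (hb : IsArr G s eps N b) (z : ℂ) (hz : ‖z‖ < G.rho)
    (j : ℕ) (g : ℤ) : Summable fun n : ℕ => ‖((n : ℂ)) ^ j * ((b n g : ℝ) : ℂ) * z ^ n‖ := by
  have hrho := G.rho_pos
  obtain ⟨C, hC0, hC⟩ := arr_bound hs heps hb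
  have hr : ‖(‖z‖ / G.rho : ℝ)‖ < 1 := by
    rw [Real.norm_of_nonneg (by positivity), div_lt_one hrho]
    exact hz
  have h1 := (summable_norm_pow_mul_geometric_of_norm_lt_one j hr).mul_left C
  refine Summable.of_nonneg_of_le (fun n => norm_nonneg _) (fun n => ?_) h1
  rw [norm_mul, norm_mul, norm_pow, norm_pow, Complex.norm_natCast, Complex.norm_real,
    Real.norm_of_nonneg (arr_nonneg hs hb n g), norm_mul, norm_pow, norm_pow,
    Real.norm_of_nonneg (by positivity : (0 : ℝ) ≤ ‖z‖ / G.rho), Real.norm_natCast]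
  have h2 := hC n g
  have h3 : b n g ≤ C / G.rho ^ n := by
    rw [le_div_iff₀ (by positivity)]
    exact h2
  calc (n : ℝ) ^ j * b n g * ‖z‖ ^ n ≤ (n : ℝ) ^ j * (C / G.rho ^ n) * ‖z‖ ^ n := by gcongr
    _ = C * ((n : ℝ) ^ j * (‖z‖ / G.rho) ^ n) := by rw [div_pow]; ring

lemma arr_hasSum {G : GapKernel} {C0 : ℕ} {s : ℕ → ℤ → ℝ} (hs : IsCap C0 s) {eps : ℝ}
    (heps : 0 ≤ eps) {N : ℕ} {b : ℕ → ℤ → ℝ} (hb : IsArr G s eps N b) (z : ℂ) (hz : ‖z‖ < G.rho)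
    (j : ℕ) (g : ℤ) : HasSum (fun n : ℕ => ((n : ℂ)) ^ j * ((b n g : ℝ) : ℂ) * z ^ n)
      (gf j b z g) :=
  (arr_summable hs heps hb z hz j g).of_norm.hasSum

lemma shift_hasSum {G : GapKernel} {C0 : ℕ} {s : ℕ → ℤ → ℝ} (hs : IsCap C0 s) {eps : ℝ}
    (heps : 0 ≤ eps) {N : ℕ} {b : ℕ → ℤ → ℝ} (hb : IsArr G s eps N b) (z : ℂ) (hz : ‖z‖ < G.rho)
    (j m : ℕ) (g : ℤ) : HasSum (fun n : ℕ => if m ≤ n then
      ((n : ℂ)) ^ j * ((b (n - m) g : ℝ) : ℂ) * z ^ n else 0)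
      (∑ l ∈ range (j + 1), ((j.choose l : ℕ) : ℂ) * ((m : ℂ) ^ (j - l) * z ^ m * gf l b z g)) := by
  rw [← hasSum_nat_add_iff' m]
  have h0 : ∑ n ∈ range m, (if m ≤ n then
      ((n : ℂ)) ^ j * ((b (n - m) g : ℝ) : ℂ) * z ^ n else 0) = 0 := by
    refine sum_eq_zero fun n hn => ?_
    rw [mem_range] at hn
    rw [if_neg (by omega)]
  rw [h0, sub_zero]
  have h1 := hasSum_sum (s := range (j + 1)) (fun l _ =>
    (arr_hasSum hs heps hb z hz l g).mul_left (((j.choose l : ℕ) : ℂ) * ((m : ℂ) ^ (j - l) * z ^ m)))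
  have h2 : (∑ l ∈ range (j + 1), ((j.choose l : ℕ) : ℂ) * ((m : ℂ) ^ (j - l) * z ^ m * gf l b z g)) =
      ∑ l ∈ range (j + 1), ((j.choose l : ℕ) : ℂ) * ((m : ℂ) ^ (j - l) * z ^ m) * gf l b z g := by
    refine sum_congr rfl fun l _ => ?_
    ring
  rw [h2]
  have h3 : (fun n : ℕ => if m ≤ n + m then
      (((n + m : ℕ) : ℂ)) ^ j * ((b (n + m - m) g : ℝ) : ℂ) * z ^ (n + m) else 0) = fun n : ℕ =>
      ∑ i ∈ range (j + 1), ((j.choose i : ℕ) : ℂ) * ((m : ℂ) ^ (j - i) * z ^ m) *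
        ((n : ℂ) ^ i * ((b n g : ℝ) : ℂ) * z ^ n) := by
    ext n
    rw [if_pos (Nat.le_add_left m n), Nat.add_sub_cancel, Nat.cast_add, add_pow, sum_mul, sum_mul]
    refine sum_congr rfl fun l _ => ?_
    rw [pow_add]
    ring
  rw [h3]
  exact h1

/-- the equation of the generating functions -/
lemma gf_eq {G : GapKernel} {C0 : ℕ} {s : ℕ → ℤ → ℝ} (hs : IsCap C0 s) {eps : ℝ}
    (heps : 0 ≤ eps) {N : ℕ} {b : ℕ → ℤ → ℝ} (hb : IsArr G s eps N b) (z : ℂ) (hz : ‖z‖ < G.rho)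
    (j : ℕ) (g : ℤ) (hg : g ∈ Icc (1 : ℤ) N) :
    gf j b z g = capz C0 s j z g + ∑ l ∈ range (j + 1), ((j.choose l : ℕ) : ℂ) *
      G.Kap (j - l) eps z N (gf l b z) g := by
  rw [mem_Icc] at hg
  -- the caps
  have h1 : HasSum (fun n : ℕ => ((n : ℂ)) ^ j * z ^ n * ((s n g : ℝ) : ℂ)) (capz C0 s j z g) := by
    unfold capz
    refine hasSum_sum_of_ne_finset_zero fun n hn => ?_
    rw [mem_range, not_lt] at hn
    rw [hs.supp_m n g (by omega)]
    simp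
  -- the pieces
  have h2 : HasSum (fun n : ℕ => ∑ i ∈ G.S, ∑ g' ∈ Icc (1 : ℤ) N,
      ((G.K i g g' * GapKernel.wt eps i g g' : ℝ) : ℂ) * (if i.1 ≤ n then
        ((n : ℂ)) ^ j * ((b (n - i.1) g' : ℝ) : ℂ) * z ^ n else 0))
      (∑ i ∈ G.S, ∑ g' ∈ Icc (1 : ℤ) N, ((G.K i g g' * GapKernel.wt eps i g g' : ℝ) : ℂ) *
        (∑ l ∈ range (j + 1), ((j.choose l : ℕ) : ℂ) *
          (((i.1 : ℕ) : ℂ) ^ (j - l) * z ^ i.1 * gf l b z g'))) := by
    refine hasSum_sum fun i _ => hasSum_sum fun g' _ => ?_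
    exact (shift_hasSum hs heps hb z hz j i.1 g').mul_left _
  have h3 := h1.add h2
  have h4 := arr_hasSum hs heps hb z hz j g
  have h5 : (fun n : ℕ => ((n : ℂ)) ^ j * ((b n g : ℝ) : ℂ) * z ^ n) = fun n : ℕ =>
      ((n : ℂ)) ^ j * z ^ n * ((s n g : ℝ) : ℂ) + ∑ i ∈ G.S, ∑ g' ∈ Icc (1 : ℤ) N,
      ((G.K i g g' * GapKernel.wt eps i g g' : ℝ) : ℂ) * (if i.1 ≤ n then
        ((n : ℂ)) ^ j * ((b (n - i.1) g' : ℝ) : ℂ) * z ^ n else 0) := by
    ext n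
    rw [hb.step n g hg.1 hg.2, Complex.ofReal_add, mul_add, add_mul]
    congr 1
    · ring
    · rw [Complex.ofReal_sum, mul_sum, sum_mul]
      refine sum_congr rfl fun i _ => ?_
      split_ifs with h
      · rw [Complex.ofReal_sum, mul_sum, sum_mul]
        refine sum_congr rfl fun g' _ => ?_
        rw [Complex.ofReal_mul]
        ring
      · simp
  rw [h5] at h4
  rw [h4.unique h3]
  congr 1
  have h6 : ∀ l ∈ range (j + 1), ((j.choose l : ℕ) : ℂ) * G.Kap (j - l) eps z N (gf l b z) g =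
      ∑ i ∈ G.S, ∑ g' ∈ Icc (1 : ℤ) N, ((G.K i g g' * GapKernel.wt eps i g g' : ℝ) : ℂ) *
        (((j.choose l : ℕ) : ℂ) * (((i.1 : ℕ) : ℂ) ^ (j - l) * z ^ i.1 * gf l b z g')) := by
    intro l _
    unfold GapKernel.Kap GapKernel.Kz
    rw [sum_comm, mul_sum]
    refine sum_congr rfl fun g' _ => ?_
    rw [sum_mul, mul_sum]
    refine sum_congr rfl fun i _ => ?_
    ring
  symm
  rw [sum_congr rfl h6, sum_comm]
  refine sum_congr rfl fun i _ => ?_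
  rw [sum_comm]
  refine sum_congr rfl fun g' _ => ?_
  rw [mul_sum]

lemma gf_supp {G : GapKernel} {s : ℕ → ℤ → ℝ} {eps : ℝ} {N : ℕ} {b : ℕ → ℤ → ℝ}
    (hb : IsArr G s eps N b) (z : ℂ) (j : ℕ) (g : ℤ) (hg : g < 1 ∨ (N : ℤ) < g) :
    gf j b z g = 0 := by
  unfold gf
  have : (fun n : ℕ => ((n : ℂ)) ^ j * ((b n g : ℝ) : ℂ) * z ^ n) = fun _ => 0 := by
    ext n
    rw [hb.zero n g hg]
    simp
  rw [this, tsum_zero]

/-- J1. -/
theorem J1 : J1_Stmt := by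
  intro G C0 s hs N eps heps
  refine ⟨⟨arr G s eps N, arr_isArr G s eps N⟩, fun b hb => ⟨fun n g => arr_nonneg hs hb n g, ?_,
    fun z hz j g => arr_summable hs heps hb z hz j g, fun z hz j => ⟨?_, ?_⟩⟩⟩
  · obtain ⟨C, -, hC⟩ := arr_bound hs heps hb
    exact ⟨C, hC⟩
  · exact fun g hg => gf_supp hb z j g hg
  · intro g hg
    unfold GapKernel.Lop
    rw [gf_eq hs heps hb z hz j g hg, sum_range_succ, Nat.choose_self, Nat.sub_self]
    simp only [Nat.cast_one, one_mul]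
    ring

end Pool.Agent.Gap
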