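import Mathlib

/-! Coefficient bound from a bound of the generating function near the dominant singularity. -/

set_option autoImplicit false

open Finset Filter Topology MeasureTheory Complex

namespace Pool.Agent.Gap

/-- distance to the singularity on the circle -/
lemma dist_circle (n : ℕ) (hn : 1 ≤ n) (θ : ℝ) (hθ : |θ| ≤ Real.pi) :
    (1 / (n : ℝ) + |θ|) / 10 ≤ ‖1 - Complex.exp (((-(1 / (n : ℝ)) : ℝ) : ℂ) + θ * I)‖ := by
  have hn' : (1 : ℝ) ≤ n := by exact_mod_cast hn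
  set x : ℝ := 1 / (n : ℝ) with hx
  have hx0 : 0 < x := by positivity
  have hx1 : x ≤ 1 := by rw [hx, div_le_one (by linarith)]; exact hn'
  set r : ℝ := Real.exp (-x) with hr
  have hr0 : 0 < r := Real.exp_pos _
  have hr1 : 1 / 3 ≤ r := by
    have h1 : Real.exp (-1) ≤ r := Real.exp_le_exp.2 (by linarith)
    have h2 : (1 : ℝ) / 3 ≤ Real.exp (-1) := by
      rw [Real.exp_neg, one_div]
      refine inv_anti₀ (Real.exp_pos _) ?_
      have := Real.exp_one_lt_d9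
      linarith
    linarith
  have hr2 : x / 2 ≤ 1 - r := by
    have h1 : r ≤ 1 - x + x ^ 2 / 2 := by
      have h3 := Real.exp_bound' (x := x) hx0.le hx1 (n := 2) (by norm_num)
      have h4 := Real.add_one_le_exp x
      have h5 : r * Real.exp x = 1 := by rw [hr, ← Real.exp_add]; simp
      have h6 := Real.quadratic_le_exp_of_nonneg hx0.le
      -- r = 1 / exp x ≤ 1 / (1 + x + x^2/2) ≤ 1 - x + x^2/2
      have h7 : (1 + x + x ^ 2 / 2) * r ≤ 1 := by
        calc (1 + x + x ^ 2 / 2) * r ≤ Real.exp x * r := mul_le_mul_of_nonneg_right h6 hr0.le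
          _ = 1 := by rw [mul_comm]; exact h5
      have h8 : (1 + x + x ^ 2 / 2) * (1 - x + x ^ 2 / 2) = 1 + x ^ 4 / 4 := by ring
      have h9 : 0 < 1 + x + x ^ 2 / 2 := by positivity
      by_contra hcon
      push Not at hcon
      have h10 : (1 + x + x ^ 2 / 2) * (1 - x + x ^ 2 / 2) < (1 + x + x ^ 2 / 2) * r :=
        mul_lt_mul_of_pos_left hcon h9
      rw [h8] at h10
      have : 0 ≤ x ^ 4 / 4 := by positivity
      linarith
    nlinarith
  have hsq : ‖1 - Complex.exp (((-x : ℝ) : ℂ) + θ * I)‖ ^ 2 =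
      (1 - r) ^ 2 + 2 * r * (1 - Real.cos θ) := by
    rw [Complex.exp_add, ← Complex.ofReal_exp, ← hr, ← Complex.normSq_eq_norm_sq,
      Complex.normSq_apply, Complex.exp_mul_I, ← Complex.ofReal_cos, ← Complex.ofReal_sin]
    simp only [Complex.sub_re, Complex.one_re, Complex.mul_re, Complex.ofReal_re, Complex.add_re,
      Complex.I_re, mul_zero, Complex.ofReal_im, Complex.I_im, mul_one, sub_self, add_zero,
      Complex.add_im, Complex.mul_im, zero_add, zero_mul, sub_zero, Complex.sub_im,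
      Complex.one_im]
    have := Real.sin_sq_add_cos_sq θ
    nlinarith
  have hcos := Real.cos_le_one_sub_mul_cos_sq hθ
  have hpi : Real.pi < 3.15 := Real.pi_lt_d2
  have hpi0 := Real.pi_pos
  have h1 : 2 / Real.pi ^ 2 * θ ^ 2 ≥ 0.2 * θ ^ 2 := by
    refine mul_le_mul_of_nonneg_right ?_ (sq_nonneg _)
    rw [le_div_iff₀ (by positivity)]
    nlinarith
  have h2 : ((x + |θ|) / 10) ^ 2 ≤ ‖1 - Complex.exp (((-x : ℝ) : ℂ) + θ * I)‖ ^ 2 := by
    rw [hsq]
    have h3 : (x / 2) ^ 2 ≤ (1 - r) ^ 2 := by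
      apply pow_le_pow_left₀ (by positivity) hr2
    have h4 : 2 * r * (1 - Real.cos θ) ≥ 2 * (1 / 3) * (0.2 * θ ^ 2) := by
      have h5 : 1 - Real.cos θ ≥ 0.2 * θ ^ 2 := by linarith
      have h6 : 0 ≤ 0.2 * θ ^ 2 := by positivity
      calc 2 * r * (1 - Real.cos θ) ≥ 2 * r * (0.2 * θ ^ 2) := by
            refine mul_le_mul_of_nonneg_left h5 (by positivity)
        _ ≥ 2 * (1 / 3) * (0.2 * θ ^ 2) := by
            refine mul_le_mul_of_nonneg_right (by linarith) h6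
    have h7 : |θ| ^ 2 = θ ^ 2 := sq_abs θ
    nlinarith [sq_nonneg (x - |θ|)]
  exact (pow_le_pow_iff_left₀ (by positivity) (norm_nonneg _) (by norm_num)).1 h2

/-- the coefficient as an integral over the circle -/
lemma coef_integral (a : ℕ → ℝ) (r : ℝ)
    (hs : Summable fun m : ℕ => ‖((a m : ℝ) : ℂ) * (r : ℂ) ^ m‖) (n : ℕ) :
    ∫ θ in (-Real.pi)..Real.pi, (∑' m : ℕ, ((a m : ℝ) : ℂ) * ((r : ℂ) * Complex.exp (θ * I)) ^ m)
      * Complex.exp (-(n * θ * I)) = 2 * Real.pi * ((a n : ℝ) : ℂ) * (r : ℂ) ^ n := by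
  set f : ℕ → C(ℝ, ℂ) := fun m => ⟨fun θ : ℝ => ((a m : ℝ) : ℂ) * ((r : ℂ) * Complex.exp (θ * I)) ^ m
    * Complex.exp (-(n * θ * I)), by fun_prop⟩ with hf
  have hnorm : ∀ m (θ : ℝ), ‖f m θ‖ = ‖((a m : ℝ) : ℂ) * (r : ℂ) ^ m‖ := by
    intro m θ
    simp only [hf, ContinuousMap.coe_mk]
    rw [norm_mul, norm_mul, norm_pow, norm_mul, Complex.norm_exp_ofReal_mul_I,
      mul_one, norm_mul, norm_pow]
    have : ‖Complex.exp (-(n * θ * I))‖ = 1 := by
      have h1 : -((n : ℂ) * θ * I) = ((-(n * θ) : ℝ) : ℂ) * I := by push_cast; ring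
      rw [h1, Complex.norm_exp_ofReal_mul_I]
    rw [this, mul_one]
  have hsum : Summable fun m => ‖(f m).restrict (⟨Set.uIcc (-Real.pi) Real.pi, isCompact_uIcc⟩ :
      TopologicalSpace.Compacts ℝ)‖ := by
    refine Summable.of_nonneg_of_le (fun m => norm_nonneg _) (fun m => ?_) hs
    rw [ContinuousMap.norm_le _ (norm_nonneg _)]
    intro θ
    rw [ContinuousMap.restrict_apply, hnorm]
  have h1 := intervalIntegral.hasSum_intervalIntegral_of_summable_norm (a := -Real.pi)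
    (b := Real.pi) hsum
  have h2 : ∀ θ : ℝ, ∑' m, f m θ = (∑' m : ℕ, ((a m : ℝ) : ℂ) *
      ((r : ℂ) * Complex.exp (θ * I)) ^ m) * Complex.exp (-(n * θ * I)) := by
    intro θ
    simp only [hf, ContinuousMap.coe_mk]
    rw [tsum_mul_right]
  simp only [h2] at h1
  have h3 : ∀ m, ∫ θ in (-Real.pi)..Real.pi, f m θ =
      if m = n then 2 * Real.pi * ((a n : ℝ) : ℂ) * (r : ℂ) ^ n else 0 := by
    intro m
    have h4 : ∀ θ : ℝ, f m θ = ((a m : ℝ) : ℂ) * (r : ℂ) ^ m *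
        Complex.exp ((((m : ℂ) - n) * I) * θ) := by
      intro θ
      simp only [hf, ContinuousMap.coe_mk]
      have h5 : (((m : ℂ) - n) * I) * θ = (m : ℂ) * (θ * I) + -(n * θ * I) := by ring
      rw [mul_pow, ← Complex.exp_nat_mul, h5, Complex.exp_add]
      ring
    simp only [h4]
    rw [intervalIntegral.integral_const_mul]
    split_ifs with h
    · subst h
      simp
      ring
    · have hc : (((m : ℂ) - n) * I) ≠ 0 := by
        refine mul_ne_zero (sub_ne_zero.2 ?_) I_ne_zero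
        exact_mod_cast h
      rw [integral_exp_mul_complex hc]
      have h5 : Complex.exp (((m : ℂ) - n) * I * (Real.pi : ℝ)) =
          Complex.exp (((m : ℂ) - n) * I * ((-Real.pi : ℝ) : ℂ)) := by
        rw [Complex.exp_eq_exp_iff_exists_int]
        refine ⟨(m : ℤ) - n, ?_⟩
        push_cast
        ring
      rw [h5, sub_self, zero_div, mul_zero]
  simp only [h3] at h1
  have h6 := hasSum_ite_eq n (2 * Real.pi * ((a n : ℝ) : ℂ) * (r : ℂ) ^ n)
  exact h1.unique h6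

lemma integral_shift_rpow (n : ℕ) (hn : 1 ≤ n) :
    ∫ θ in (0 : ℝ)..Real.pi, (1 / (n : ℝ) + θ) ^ (-(3 / 2) : ℝ) ≤ 2 * Real.sqrt n := by
  have hn' : (0 : ℝ) < n := by exact_mod_cast hn
  have hpi := Real.pi_pos
  have h1 := intervalIntegral.integral_comp_add_left (a := 0) (b := Real.pi)
    (fun y : ℝ => y ^ (-(3 / 2) : ℝ)) (1 / (n : ℝ))
  rw [h1, integral_rpow]
  · have h2 : (1 / (n : ℝ) + 0) ^ (-(3 / 2) + 1 : ℝ) = Real.sqrt n := by
      rw [add_zero, one_div, Real.inv_rpow hn'.le, ← Real.rpow_neg hn'.le, Real.sqrt_eq_rpow]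
      norm_num
    have h3 : 0 ≤ (1 / (n : ℝ) + Real.pi) ^ (-(3 / 2) + 1 : ℝ) := by positivity
    rw [h2]
    rw [div_le_iff_of_neg (by norm_num)]
    linarith
  · right
    refine ⟨by norm_num, ?_⟩
    rw [Set.uIcc_of_le (by linarith), Set.mem_Icc]
    intro h
    have : 0 < 1 / (n : ℝ) := by positivity
    linarith [h.1]

/-- Coefficient bound: a generating function which is `O(|rho - z|^{-3/2})` in the disc has
coefficients `O(rho^{-n} n^{1/2})`. -/
lemma coef_bound (rho C : ℝ) (hr : 0 < rho) (hC : 0 ≤ C) : ∃ C' : ℝ, 0 ≤ C' ∧ ∀ a : ℕ → ℝ,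
    (∀ z : ℂ, ‖z‖ < rho → Summable fun m : ℕ => ‖((a m : ℝ) : ℂ) * z ^ m‖) →
    (∀ z : ℂ, ‖z‖ < rho → ‖∑' m : ℕ, ((a m : ℝ) : ℂ) * z ^ m‖ *
      (Real.sqrt ‖(rho : ℂ) - z‖ * ‖(rho : ℂ) - z‖) ≤ C) →
    ∀ n : ℕ, 1 ≤ n → |a n| * rho ^ n ≤ C' * Real.sqrt n := by
  set q : ℝ := rho / 10 with hq
  have hq0 : 0 < q := by positivity
  set c1 : ℝ := C / (Real.sqrt q * q) with hc1
  have hc10 : 0 ≤ c1 := by positivity
  refine ⟨Real.exp 1 * (4 * c1), by positivity, fun a hs hF n hn => ?_⟩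
  have hn' : (0 : ℝ) < n := by exact_mod_cast hn
  have hpi := Real.pi_pos
  set r : ℝ := rho * Real.exp (-(1 / (n : ℝ))) with hrdef
  have hr0 : 0 < r := by positivity
  have hrlt : r < rho := by
    rw [hrdef]
    have : Real.exp (-(1 / (n : ℝ))) < 1 := by
      rw [Real.exp_lt_one_iff]
      have : 0 < 1 / (n : ℝ) := by positivity
      linarith
    nlinarith
  have hsr : Summable fun m : ℕ => ‖((a m : ℝ) : ℂ) * (r : ℂ) ^ m‖ := by
    apply hs
    rw [Complex.norm_real, Real.norm_of_nonneg hr0.le]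
    exact hrlt
  have h1 := coef_integral a r hsr n
  -- pointwise bound
  have h2 : ∀ θ : ℝ, |θ| ≤ Real.pi → ‖(∑' m : ℕ, ((a m : ℝ) : ℂ) *
      ((r : ℂ) * Complex.exp (θ * I)) ^ m) * Complex.exp (-(n * θ * I))‖ ≤
      c1 * (1 / (n : ℝ) + |θ|) ^ (-(3 / 2) : ℝ) := by
    intro θ hθ
    have h3 : ‖Complex.exp (-(n * θ * I))‖ = 1 := by
      have h1 : -((n : ℂ) * θ * I) = ((-(n * θ) : ℝ) : ℂ) * I := by push_cast; ring
      rw [h1, Complex.norm_exp_ofReal_mul_I]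
    rw [norm_mul, h3, mul_one]
    set z : ℂ := (r : ℂ) * Complex.exp (θ * I) with hz
    have hz1 : ‖z‖ < rho := by
      rw [hz, norm_mul, Complex.norm_exp_ofReal_mul_I, mul_one, Complex.norm_real,
        Real.norm_of_nonneg hr0.le]
      exact hrlt
    have hz2 : z = (rho : ℂ) * Complex.exp (((-(1 / (n : ℝ)) : ℝ) : ℂ) + θ * I) := by
      rw [hz, hrdef, Complex.exp_add]
      push_cast
      ring
    have hx : 0 < 1 / (n : ℝ) + |θ| := by positivity
    have hd : q * (1 / (n : ℝ) + |θ|) ≤ ‖(rho : ℂ) - z‖ := by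
      have h4 := dist_circle n hn θ hθ
      have h5 : (rho : ℂ) - z = (rho : ℂ) * (1 - Complex.exp (((-(1 / (n : ℝ)) : ℝ) : ℂ) + θ * I)) := by
        rw [hz2]; ring
      rw [h5, norm_mul, Complex.norm_real, Real.norm_of_nonneg hr.le]
      calc q * (1 / (n : ℝ) + |θ|) = rho * ((1 / (n : ℝ) + |θ|) / 10) := by rw [hq]; ring
        _ ≤ _ := mul_le_mul_of_nonneg_left h4 hr.le
    have hqx : 0 < q * (1 / (n : ℝ) + |θ|) := by positivity
    have h6 := hF z hz1
    have h7 : Real.sqrt (q * (1 / (n : ℝ) + |θ|)) * (q * (1 / (n : ℝ) + |θ|)) ≤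
        Real.sqrt ‖(rho : ℂ) - z‖ * ‖(rho : ℂ) - z‖ := by
      exact mul_le_mul (Real.sqrt_le_sqrt hd) hd hqx.le (Real.sqrt_nonneg _)
    have h8 : ‖∑' m : ℕ, ((a m : ℝ) : ℂ) * z ^ m‖ *
        (Real.sqrt (q * (1 / (n : ℝ) + |θ|)) * (q * (1 / (n : ℝ) + |θ|))) ≤ C :=
      (mul_le_mul_of_nonneg_left h7 (norm_nonneg _)).trans h6
    have h9 : Real.sqrt (q * (1 / (n : ℝ) + |θ|)) * (q * (1 / (n : ℝ) + |θ|)) =
        (Real.sqrt q * q) * (1 / (n : ℝ) + |θ|) ^ ((3 / 2) : ℝ) := by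
      rw [Real.sqrt_mul hq0.le, Real.sqrt_eq_rpow (1 / (n : ℝ) + |θ|)]
      have : (1 / (n : ℝ) + |θ|) ^ ((3 / 2) : ℝ) =
          (1 / (n : ℝ) + |θ|) ^ ((1 / 2) : ℝ) * (1 / (n : ℝ) + |θ|) := by
        rw [← Real.rpow_add_one hx.ne']
        norm_num
      rw [this]
      ring
    rw [h9] at h8
    have hp : 0 < (Real.sqrt q * q) * (1 / (n : ℝ) + |θ|) ^ ((3 / 2) : ℝ) := by positivity
    rw [Real.rpow_neg hx.le, hc1, div_mul_eq_mul_div, ← div_eq_mul_inv, div_div,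
      mul_comm ((1 / (n : ℝ) + |θ|) ^ ((3 / 2) : ℝ)), le_div_iff₀ hp]
    exact h8
  -- integrate
  have hcont : ContinuousOn (fun θ : ℝ => c1 * (1 / (n : ℝ) + |θ|) ^ (-(3 / 2) : ℝ)) Set.univ := by
    apply ContinuousOn.mul continuousOn_const
    apply ContinuousOn.rpow_const (by fun_prop)
    intro θ _
    left
    have : 0 < 1 / (n : ℝ) + |θ| := by positivity
    exact this.ne'
  have hcont' : Continuous (fun θ : ℝ => c1 * (1 / (n : ℝ) + |θ|) ^ (-(3 / 2) : ℝ)) :=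
    continuousOn_univ.1 hcont
  have h3 : ‖∫ θ in (-Real.pi)..Real.pi, (∑' m : ℕ, ((a m : ℝ) : ℂ) *
      ((r : ℂ) * Complex.exp (θ * I)) ^ m) * Complex.exp (-(n * θ * I))‖ ≤
      ∫ θ in (-Real.pi)..Real.pi, c1 * (1 / (n : ℝ) + |θ|) ^ (-(3 / 2) : ℝ) := by
    apply intervalIntegral.norm_integral_le_of_norm_le (by linarith)
    · filter_upwards with θ hθ
      apply h2
      rw [abs_le]
      exact ⟨hθ.1.le, hθ.2⟩
    · exact hcont'.intervalIntegrable _ _
  have h4 : ∫ θ in (-Real.pi)..Real.pi, c1 * (1 / (n : ℝ) + |θ|) ^ (-(3 / 2) : ℝ) ≤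
      c1 * (4 * Real.sqrt n) := by
    rw [intervalIntegral.integral_const_mul]
    refine mul_le_mul_of_nonneg_left ?_ hc10
    have hc2 : Continuous (fun θ : ℝ => (1 / (n : ℝ) + |θ|) ^ (-(3 / 2) : ℝ)) := by
      apply Continuous.rpow_const (by fun_prop)
      intro θ
      left
      have : 0 < 1 / (n : ℝ) + |θ| := by positivity
      exact this.ne'
    rw [← intervalIntegral.integral_add_adjacent_intervals (b := 0)
      (hc2.intervalIntegrable _ _) (hc2.intervalIntegrable _ _)]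
    have h5 : ∫ θ in (0 : ℝ)..Real.pi, (1 / (n : ℝ) + |θ|) ^ (-(3 / 2) : ℝ) =
        ∫ θ in (0 : ℝ)..Real.pi, (1 / (n : ℝ) + θ) ^ (-(3 / 2) : ℝ) := by
      apply intervalIntegral.integral_congr
      intro θ hθ
      rw [Set.uIcc_of_le hpi.le, Set.mem_Icc] at hθ
      simp only
      rw [abs_of_nonneg hθ.1]
    have h6 : ∫ θ in (-Real.pi)..0, (1 / (n : ℝ) + |θ|) ^ (-(3 / 2) : ℝ) =
        ∫ θ in (0 : ℝ)..Real.pi, (1 / (n : ℝ) + |θ|) ^ (-(3 / 2) : ℝ) := by
      have h7 := intervalIntegral.integral_comp_neg (a := 0) (b := Real.pi)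
        (fun θ : ℝ => (1 / (n : ℝ) + |θ|) ^ (-(3 / 2) : ℝ))
      simp only [abs_neg, neg_zero] at h7
      exact h7.symm
    rw [h6, h5]
    have := integral_shift_rpow n hn
    linarith
  have h5 : ‖2 * (Real.pi : ℂ) * ((a n : ℝ) : ℂ) * (r : ℂ) ^ n‖ = 2 * Real.pi * |a n| * r ^ n := by
    rw [norm_mul, norm_mul, norm_mul, norm_pow, Complex.norm_real, Complex.norm_real,
      Complex.norm_real, Real.norm_of_nonneg hpi.le, Real.norm_of_nonneg hr0.le, Real.norm_eq_abs]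
    norm_num
  rw [h1, h5] at h3
  have h6 : r ^ n = rho ^ n * Real.exp (-1) := by
    rw [hrdef, mul_pow, ← Real.exp_nat_mul]
    congr 2
    field_simp
  have h7 : 2 * Real.pi * |a n| * r ^ n ≤ c1 * (4 * Real.sqrt n) := h3.trans h4
  rw [h6] at h7
  have h8 : (1 : ℝ) ≤ 2 * Real.pi := by
    have := Real.pi_gt_three
    linarith
  have h9 : |a n| * rho ^ n * Real.exp (-1) ≤ c1 * (4 * Real.sqrt n) := by
    refine le_trans ?_ h7
    have h10 : 0 ≤ |a n| * rho ^ n * Real.exp (-1) := by positivity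
    calc |a n| * rho ^ n * Real.exp (-1) = 1 * (|a n| * rho ^ n * Real.exp (-1)) := by ring
      _ ≤ 2 * Real.pi * (|a n| * rho ^ n * Real.exp (-1)) := mul_le_mul_of_nonneg_right h8 h10
      _ = _ := by ring
  have h10 : Real.exp 1 * Real.exp (-1) = 1 := by rw [← Real.exp_add]; simp
  calc |a n| * rho ^ n = Real.exp 1 * (|a n| * rho ^ n * Real.exp (-1)) := by
        rw [mul_comm (|a n| * rho ^ n), ← mul_assoc, h10, one_mul]
    _ ≤ Real.exp 1 * (c1 * (4 * Real.sqrt n)) :=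
        mul_le_mul_of_nonneg_left h9 (Real.exp_pos _).le
    _ = _ := by ring

end Pool.Agent.Gap
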