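import Mathlib
import Pool.Agent.Lib_helper24.Gap.B1
import Pool.Agent.Lib_helper24.Gap.Coef

/-! MODULE M2: second moment bound. -/

set_option autoImplicit false

open Finset Filter Topology

namespace Pool.Agent.Gap

/-! ### Moments of polynomials -/

/-- first moment -/
noncomputable def m1 (P : Polynomial ℝ) : ℝ := P.derivative.eval 1

/-- second moment -/
noncomputable def m2 (P : Polynomial ℝ) : ℝ := P.derivative.derivative.eval 1 + P.derivative.eval 1

lemma m1_zero : m1 0 = 0 := by simp [m1]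
lemma m2_zero : m2 0 = 0 := by simp [m2]

lemma m1_add (P Q : Polynomial ℝ) : m1 (P + Q) = m1 P + m1 Q := by simp [m1]
lemma m2_add (P Q : Polynomial ℝ) : m2 (P + Q) = m2 P + m2 Q := by simp [m2]; ring

lemma m1_C (c : ℝ) : m1 (Polynomial.C c) = 0 := by simp [m1]
lemma m2_C (c : ℝ) : m2 (Polynomial.C c) = 0 := by simp [m2]

lemma m1_C_mul (c : ℝ) (P : Polynomial ℝ) : m1 (Polynomial.C c * P) = c * m1 P := by
  simp [m1]
lemma m2_C_mul (c : ℝ) (P : Polynomial ℝ) : m2 (Polynomial.C c * P) = c * m2 P := by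
  simp [m2]; ring

lemma m1_sum {ι : Type*} (s : Finset ι) (f : ι → Polynomial ℝ) :
    m1 (∑ i ∈ s, f i) = ∑ i ∈ s, m1 (f i) := by
  simp [m1, Polynomial.eval_finsetSum]

lemma m2_sum {ι : Type*} (s : Finset ι) (f : ι → Polynomial ℝ) :
    m2 (∑ i ∈ s, f i) = ∑ i ∈ s, m2 (f i) := by
  simp [m2, Polynomial.eval_finsetSum, sum_add_distrib]

lemma m1_X_mul (P : Polynomial ℝ) : m1 (Polynomial.X * P) = P.eval 1 + m1 P := by
  simp [m1]

lemma m2_X_mul (P : Polynomial ℝ) : m2 (Polynomial.X * P) = P.eval 1 + 2 * m1 P + m2 P := by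
  simp [m2, m1]; ring

lemma m1_X_pow_mul (a : ℕ) (P : Polynomial ℝ) :
    m1 (Polynomial.X ^ a * P) = a * P.eval 1 + m1 P := by
  induction a with
  | zero => simp
  | succ a ih =>
    rw [pow_succ', mul_assoc, m1_X_mul, ih]
    simp
    ring

lemma m2_X_pow_mul (a : ℕ) (P : Polynomial ℝ) :
    m2 (Polynomial.X ^ a * P) = (a : ℝ) ^ 2 * P.eval 1 + 2 * a * m1 P + m2 P := by
  induction a with
  | zero => simp
  | succ a ih =>
    rw [pow_succ', mul_assoc, m2_X_mul, m1_X_pow_mul, ih]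
    simp
    ring

/-- the quadratic form `∑ p_c (x - c)^2` is nonnegative -/
def Good (P : Polynomial ℝ) : Prop := ∀ x : ℝ, 0 ≤ x ^ 2 * P.eval 1 - 2 * x * m1 P + m2 P

lemma good_zero : Good 0 := by intro x; simp [m1_zero, m2_zero]

lemma good_C (c : ℝ) (hc : 0 ≤ c) : Good (Polynomial.C c) := by
  intro x
  rw [m1_C, m2_C, Polynomial.eval_C]
  have := mul_nonneg (sq_nonneg x) hc
  linarith

lemma good_add {P Q : Polynomial ℝ} (hP : Good P) (hQ : Good Q) : Good (P + Q) := by
  intro x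
  have h1 := hP x
  have h2 := hQ x
  rw [m1_add, m2_add, Polynomial.eval_add]
  linarith

lemma good_sum {ι : Type*} (s : Finset ι) (f : ι → Polynomial ℝ) (h : ∀ i ∈ s, Good (f i)) :
    Good (∑ i ∈ s, f i) := by
  classical
  induction s using Finset.induction_on with
  | empty => simpa using good_zero
  | insert a s ha ih =>
    rw [sum_insert ha]
    exact good_add (h a (mem_insert_self _ _)) (ih fun i hi => h i (mem_insert_of_mem hi))

lemma good_C_mul {P : Polynomial ℝ} (c : ℝ) (hc : 0 ≤ c) (hP : Good P) :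
    Good (Polynomial.C c * P) := by
  intro x
  have h1 := mul_nonneg hc (hP x)
  rw [m1_C_mul, m2_C_mul, Polynomial.eval_mul, Polynomial.eval_C]
  calc 0 ≤ c * (x ^ 2 * P.eval 1 - 2 * x * m1 P + m2 P) := h1
    _ = _ := by ring

lemma good_X_pow_mul {P : Polynomial ℝ} (a : ℕ) (hP : Good P) :
    Good (Polynomial.X ^ a * P) := by
  intro x
  have h1 := hP (x - a)
  rw [m1_X_pow_mul, m2_X_pow_mul, Polynomial.eval_mul, Polynomial.eval_pow, Polynomial.eval_X,
    one_pow, one_mul]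
  calc 0 ≤ (x - a) ^ 2 * P.eval 1 - 2 * (x - a) * m1 P + m2 P := h1
    _ = _ := by ring

lemma good_ineq {P : Polynomial ℝ} (hP : Good P) (a k : ℕ) (hk : 1 ≤ k) :
    m2 (Polynomial.X ^ a * P) ≤ (1 + 1 / (k : ℝ)) * m2 P + (1 + k) * ((a : ℝ) ^ 2 * P.eval 1) := by
  have hk' : (0 : ℝ) < k := by exact_mod_cast hk
  have h1 := hP (k * a)
  rw [m2_X_pow_mul]
  have h2 : 2 * (a : ℝ) * m1 P ≤ 1 / (k : ℝ) * m2 P + k * ((a : ℝ) ^ 2 * P.eval 1) := by
    have h3 : 0 ≤ 1 / (k : ℝ) * ((k * a) ^ 2 * P.eval 1 - 2 * (k * a) * m1 P + m2 P) :=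
      mul_nonneg (by positivity) h1
    have h4 : 1 / (k : ℝ) * ((k * a) ^ 2 * P.eval 1 - 2 * (k * a) * m1 P + m2 P) =
        k * ((a : ℝ) ^ 2 * P.eval 1) - 2 * a * m1 P + 1 / (k : ℝ) * m2 P := by
      field_simp
    rw [h4] at h3
    linarith
  linarith

/-! ### Arrays with general nonnegative sources -/

lemma arr_nonneg' {G : GapKernel} {s : ℕ → ℤ → ℝ} (hs : ∀ m g, 0 ≤ s m g) {eps : ℝ} {N : ℕ}
    {b : ℕ → ℤ → ℝ} (hb : IsArr G s eps N b) (n : ℕ) : ∀ g, 0 ≤ b n g := by
  induction n using Nat.strong_induction_on with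
  | _ n ih =>
    intro g
    by_cases hg : 1 ≤ g ∧ g ≤ (N : ℤ)
    · rw [hb.step n g hg.1 hg.2]
      refine add_nonneg (hs n g) (sum_nonneg fun i hi => ?_)
      split_ifs with h
      · refine sum_nonneg fun g' _ => ?_
        exact mul_nonneg (mul_nonneg (G.K_nonneg _ _ _) (wt_nonneg _ _ _ _))
          (ih _ (by have := (G.pos_mem i hi).1; omega) g')
      · exact le_rfl
    · rw [hb.zero n g (by omega)]

/-- total mass of the array, general source -/
lemma arr_mass' {G : GapKernel} {s : ℕ → ℤ → ℝ} (hs : ∀ m g, 0 ≤ s m g) {eps : ℝ}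
    (heps : 0 ≤ eps) {N : ℕ} {b : ℕ → ℤ → ℝ} (hb : IsArr G s eps N b) (n : ℕ) :
    (∑ g ∈ Icc (1 : ℤ) N, b n g) * G.rho ^ n ≤
      ∑ k ∈ range (n + 1), (∑ g ∈ Icc (1 : ℤ) N, s k g) * G.rho ^ k := by
  have hrho := G.rho_pos
  have hS : ∀ k, 0 ≤ (∑ g ∈ Icc (1 : ℤ) N, s k g) * G.rho ^ k := fun k =>
    mul_nonneg (sum_nonneg fun g _ => hs k g) (by positivity)
  induction n using Nat.strong_induction_on with
  | _ n ih =>
    have h1 : (∑ g ∈ Icc (1 : ℤ) N, b n g) = (∑ g ∈ Icc (1 : ℤ) N, s n g) +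
        ∑ i ∈ G.S, (if i.1 ≤ n then ∑ g' ∈ Icc (1 : ℤ) N,
          (∑ g ∈ Icc (1 : ℤ) N, G.K i g g' * GapKernel.wt eps i g g') * b (n - i.1) g' else 0) := by
      have h2 : ∀ g ∈ Icc (1 : ℤ) N, b n g = s n g + ∑ i ∈ G.S, if i.1 ≤ n then
          ∑ g' ∈ Icc (1 : ℤ) N, G.K i g g' * GapKernel.wt eps i g g' * b (n - i.1) g' else 0 := by
        intro g hg
        rw [mem_Icc] at hg
        exact hb.step n g hg.1 hg.2
      rw [sum_congr rfl h2, sum_add_distrib, sum_comm]
      congr 1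
      refine sum_congr rfl fun i _ => ?_
      split_ifs with h
      · rw [sum_comm]
        refine sum_congr rfl fun g' _ => ?_
        rw [sum_mul]
      · simp
    rw [h1, add_mul, sum_range_succ, add_comm (∑ k ∈ range n, _)]
    refine add_le_add le_rfl ?_
    rw [sum_mul]
    have h3 : ∀ i ∈ G.S, (if i.1 ≤ n then ∑ g' ∈ Icc (1 : ℤ) N,
          (∑ g ∈ Icc (1 : ℤ) N, G.K i g g' * GapKernel.wt eps i g g') * b (n - i.1) g' else 0)
          * G.rho ^ n ≤ G.rho ^ i.1 * G.tot i *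
            ∑ k ∈ range n, (∑ g ∈ Icc (1 : ℤ) N, s k g) * G.rho ^ k := by
      intro i hi
      have hi1 := (G.pos_mem i hi).1
      have hnn : 0 ≤ ∑ k ∈ range n, (∑ g ∈ Icc (1 : ℤ) N, s k g) * G.rho ^ k :=
        sum_nonneg fun k _ => hS k
      split_ifs with h
      · have h4 : ∑ g' ∈ Icc (1 : ℤ) N,
          (∑ g ∈ Icc (1 : ℤ) N, G.K i g g' * GapKernel.wt eps i g g') * b (n - i.1) g' ≤
            G.tot i * ∑ g' ∈ Icc (1 : ℤ) N, b (n - i.1) g' := by
          rw [mul_sum]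
          refine sum_le_sum fun g' hg' => ?_
          rw [mem_Icc] at hg'
          refine mul_le_mul_of_nonneg_right ?_ (arr_nonneg' hs hb _ g')
          refine le_trans (sum_le_sum fun g hg => ?_) (G.sum_K_le' i g' (Icc (1 : ℤ) N))
          rw [mem_Icc] at hg
          exact mul_le_of_le_one_right (G.K_nonneg _ _ _) (wt_le_one eps heps i g g' hg.1 hg'.1)
        have h5 := ih (n - i.1) (by omega)
        have h6 : ∑ k ∈ range (n - i.1 + 1), (∑ g ∈ Icc (1 : ℤ) N, s k g) * G.rho ^ k ≤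
            ∑ k ∈ range n, (∑ g ∈ Icc (1 : ℤ) N, s k g) * G.rho ^ k :=
          sum_le_sum_of_subset_of_nonneg (range_subset_range.2 (by omega)) (fun k _ _ => hS k)
        have h7 : G.rho ^ n = G.rho ^ i.1 * G.rho ^ (n - i.1) := by
          rw [← pow_add]; congr 1; omega
        have ht := G.tot_nonneg i
        calc (∑ g' ∈ Icc (1 : ℤ) N,
          (∑ g ∈ Icc (1 : ℤ) N, G.K i g g' * GapKernel.wt eps i g g') * b (n - i.1) g') * G.rho ^ n
            ≤ (G.tot i * ∑ g' ∈ Icc (1 : ℤ) N, b (n - i.1) g') * G.rho ^ n :=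
              mul_le_mul_of_nonneg_right h4 (by positivity)
          _ = G.rho ^ i.1 * G.tot i *
              ((∑ g' ∈ Icc (1 : ℤ) N, b (n - i.1) g') * G.rho ^ (n - i.1)) := by rw [h7]; ring
          _ ≤ G.rho ^ i.1 * G.tot i *
              ∑ k ∈ range n, (∑ g ∈ Icc (1 : ℤ) N, s k g) * G.rho ^ k :=
              mul_le_mul_of_nonneg_left (h5.trans h6) (by positivity)
      · rw [zero_mul]
        have ht := G.tot_nonneg i
        positivity
    refine (sum_le_sum h3).trans ?_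
    rw [← sum_mul, G.crit', one_mul]

/-- summability for bounded sources -/
lemma arr_summable' {G : GapKernel} {s : ℕ → ℤ → ℝ} (hs : ∀ m g, 0 ≤ s m g) (D : ℝ)
    {eps : ℝ}
    (heps : 0 ≤ eps) {N : ℕ} (hsD : ∀ m, ∀ g ∈ Icc (1 : ℤ) N, s m g * G.rho ^ m ≤ D)
    {b : ℕ → ℤ → ℝ} (hb : IsArr G s eps N b) (z : ℂ) (hz : ‖z‖ < G.rho) (g : ℤ) :
    Summable fun n : ℕ => ‖((b n g : ℝ) : ℂ) * z ^ n‖ := by
  have hrho := G.rho_pos
  have hb0 := arr_nonneg' hs hb
  have hbound : ∀ n, b n g * G.rho ^ n ≤ ((n : ℝ) + 1) * ((N : ℝ) * |D|) := by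
    intro n
    have h1 : b n g * G.rho ^ n ≤ (∑ g ∈ Icc (1 : ℤ) N, b n g) * G.rho ^ n := by
      refine mul_le_mul_of_nonneg_right ?_ (by positivity)
      by_cases hg : 1 ≤ g ∧ g ≤ (N : ℤ)
      · exact single_le_sum (f := fun g => b n g) (fun g _ => hb0 n g) (mem_Icc.2 hg)
      · rw [hb.zero n g (by omega)]
        exact sum_nonneg fun g _ => hb0 n g
    refine h1.trans ((arr_mass' hs heps hb n).trans ?_)
    have h2 : ∀ k ∈ range (n + 1), (∑ g ∈ Icc (1 : ℤ) N, s k g) * G.rho ^ k ≤ (N : ℝ) * |D| := by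
      intro k _
      rw [sum_mul]
      refine (sum_le_card_nsmul _ _ |D| fun g hg => (hsD k g hg).trans (le_abs_self D)).trans ?_
      rw [Int.card_Icc, nsmul_eq_mul]
      have : ((((N : ℤ) + 1 - 1).toNat : ℕ) : ℝ) = N := by simp
      rw [this]
    refine (sum_le_card_nsmul _ _ _ h2).trans ?_
    rw [card_range, nsmul_eq_mul]
    push_cast
    exact le_rfl
  have hr : ‖(‖z‖ / G.rho : ℝ)‖ < 1 := by
    rw [Real.norm_of_nonneg (by positivity), div_lt_one hrho]
    exact hz
  have h1 := ((summable_norm_pow_mul_geometric_of_norm_lt_one 1 hr).add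
    (summable_norm_pow_mul_geometric_of_norm_lt_one 0 hr)).mul_left ((N : ℝ) * |D|)
  refine Summable.of_nonneg_of_le (fun n => norm_nonneg _) (fun n => ?_) h1
  rw [norm_mul, norm_pow, Complex.norm_real, Real.norm_of_nonneg (hb0 n g), norm_mul, norm_pow,
    norm_pow, norm_mul, norm_pow, norm_pow,
    Real.norm_of_nonneg (by positivity : (0 : ℝ) ≤ ‖z‖ / G.rho), Real.norm_natCast]
  have h3 : b n g ≤ ((n : ℝ) + 1) * ((N : ℝ) * |D|) / G.rho ^ n := by
    rw [le_div_iff₀ (by positivity)]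
    exact hbound n
  calc b n g * ‖z‖ ^ n ≤ (((n : ℝ) + 1) * ((N : ℝ) * |D|) / G.rho ^ n) * ‖z‖ ^ n := by gcongr
    _ = (N : ℝ) * |D| * ((n : ℝ) ^ 1 * (‖z‖ / G.rho) ^ n + (n : ℝ) ^ 0 * (‖z‖ / G.rho) ^ n) := by
      rw [div_pow]; ring

/-! ### The array of squared gaps -/

/-- source `∑ K (g+g')² b` -/
noncomputable def sqSrc (G : GapKernel) (N : ℕ) (b : ℕ → ℤ → ℝ) (n : ℕ) (g : ℤ) : ℝ :=
  ∑ i ∈ G.S, if i.1 ≤ n then
    ∑ g' ∈ Icc (1 : ℤ) N, G.K i g g' * ((g : ℝ) + (g' : ℝ)) ^ 2 * b (n - i.1) g' else 0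

lemma sqSrc_nonneg {G : GapKernel} {N : ℕ} {b : ℕ → ℤ → ℝ} (hb : ∀ n g, 0 ≤ b n g) (n : ℕ)
    (g : ℤ) : 0 ≤ sqSrc G N b n g := by
  refine sum_nonneg fun i _ => ?_
  split_ifs
  · exact sum_nonneg fun g' _ => mul_nonneg (mul_nonneg (G.K_nonneg _ _ _) (sq_nonneg _)) (hb _ _)
  · exact le_rfl

lemma sqSrc_bound {G : GapKernel} {N : ℕ} {b : ℕ → ℤ → ℝ} (hb : ∀ n g, 0 ≤ b n g) (C : ℝ)
    (hC0 : 0 ≤ C) (hC : ∀ n g, b n g * G.rho ^ n ≤ C) (n : ℕ) (g : ℤ) (hg : g ∈ Icc (1 : ℤ) N) :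
    sqSrc G N b n g * G.rho ^ n ≤ (2 * (N : ℝ)) ^ 2 * C := by
  have hrho := G.rho_pos
  rw [mem_Icc] at hg
  have hgN : (g : ℝ) ≤ N := by exact_mod_cast hg.2
  have hg1 : (1 : ℝ) ≤ g := by exact_mod_cast hg.1
  unfold sqSrc
  rw [sum_mul]
  have h1 : ∀ i ∈ G.S, (if i.1 ≤ n then ∑ g' ∈ Icc (1 : ℤ) N, G.K i g g' *
      ((g : ℝ) + (g' : ℝ)) ^ 2 * b (n - i.1) g' else 0) * G.rho ^ n ≤
      G.rho ^ i.1 * G.tot i * ((2 * (N : ℝ)) ^ 2 * C) := by
    intro i hi
    have ht := G.tot_nonneg i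
    split_ifs with h
    · have h7 : G.rho ^ n = G.rho ^ i.1 * G.rho ^ (n - i.1) := by
        rw [← pow_add]; congr 1; omega
      have h2 : (∑ g' ∈ Icc (1 : ℤ) N, G.K i g g' *
          ((g : ℝ) + (g' : ℝ)) ^ 2 * b (n - i.1) g') * G.rho ^ (n - i.1) ≤
          ∑ g' ∈ Icc (1 : ℤ) N, G.K i g g' * ((2 * (N : ℝ)) ^ 2 * C) := by
        rw [sum_mul]
        refine sum_le_sum fun g' hg' => ?_
        rw [mem_Icc] at hg'
        have hgN' : (g' : ℝ) ≤ N := by exact_mod_cast hg'.2
        have hg1' : (1 : ℝ) ≤ g' := by exact_mod_cast hg'.1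
        have h3 : ((g : ℝ) + (g' : ℝ)) ^ 2 ≤ (2 * (N : ℝ)) ^ 2 := by
          apply pow_le_pow_left₀ (by linarith)
          linarith
        have h4 := hC (n - i.1) g'
        have h5 : 0 ≤ b (n - i.1) g' * G.rho ^ (n - i.1) :=
          mul_nonneg (hb _ _) (by positivity)
        calc G.K i g g' * ((g : ℝ) + (g' : ℝ)) ^ 2 * b (n - i.1) g' * G.rho ^ (n - i.1)
            = G.K i g g' * (((g : ℝ) + (g' : ℝ)) ^ 2 * (b (n - i.1) g' * G.rho ^ (n - i.1))) := by
              ring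
          _ ≤ G.K i g g' * ((2 * (N : ℝ)) ^ 2 * C) := by
              refine mul_le_mul_of_nonneg_left ?_ (G.K_nonneg _ _ _)
              exact mul_le_mul h3 h4 h5 (by positivity)
      calc (∑ g' ∈ Icc (1 : ℤ) N, G.K i g g' * ((g : ℝ) + (g' : ℝ)) ^ 2 * b (n - i.1) g') *
            G.rho ^ n = G.rho ^ i.1 * ((∑ g' ∈ Icc (1 : ℤ) N, G.K i g g' *
              ((g : ℝ) + (g' : ℝ)) ^ 2 * b (n - i.1) g') * G.rho ^ (n - i.1)) := by rw [h7]; ring
        _ ≤ G.rho ^ i.1 * (∑ g' ∈ Icc (1 : ℤ) N, G.K i g g' * ((2 * (N : ℝ)) ^ 2 * C)) :=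
            mul_le_mul_of_nonneg_left h2 (by positivity)
        _ ≤ G.rho ^ i.1 * (G.tot i * ((2 * (N : ℝ)) ^ 2 * C)) := by
            rw [← sum_mul]
            refine mul_le_mul_of_nonneg_left ?_ (by positivity)
            exact mul_le_mul_of_nonneg_right (G.sum_K_le i g _) (by positivity)
        _ = _ := by ring
    · rw [zero_mul]
      positivity
  refine (sum_le_sum h1).trans ?_
  rw [← sum_mul, G.crit', one_mul]

/-- the exact solution is good -/
lemma sol_good {G : GapKernel} {C0 : ℕ} {s : ℕ → ℤ → ℝ} (hs : IsCap C0 s)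
    {B : ℕ → ℤ → Polynomial ℝ} (hB : IsSol G s B) (n : ℕ) : ∀ g, Good (B n g) := by
  induction n using Nat.strong_induction_on with
  | _ n ih =>
    intro g
    by_cases hg : 1 ≤ g
    · rw [hB.step n g hg]
      refine good_add (good_C _ (hs.nonneg n g)) (good_sum _ _ fun i hi => ?_)
      split_ifs with h
      · refine good_sum _ _ fun g' _ => ?_
        rw [mul_assoc]
        exact good_C_mul _ (G.K_nonneg _ _ _) (good_X_pow_mul _
          (ih _ (by have := (G.pos_mem i hi).1; omega) g'))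
      · exact good_zero
    · rw [hB.zero n g (by omega)]
      exact good_zero

lemma sol_eval_nonneg {G : GapKernel} {C0 : ℕ} {s : ℕ → ℤ → ℝ} (hs : IsCap C0 s)
    {B : ℕ → ℤ → Polynomial ℝ} (hB : IsSol G s B) (n : ℕ) : ∀ g, 0 ≤ (B n g).eval 1 := by
  induction n using Nat.strong_induction_on with
  | _ n ih =>
    intro g
    by_cases hg : 1 ≤ g
    · rw [hB.step n g hg, Polynomial.eval_add, Polynomial.eval_C, Polynomial.eval_finsetSum]
      refine add_nonneg (hs.nonneg n g) (sum_nonneg fun i hi => ?_)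
      split_ifs with h
      · rw [Polynomial.eval_finsetSum]
        refine sum_nonneg fun g' _ => ?_
        rw [Polynomial.eval_mul, Polynomial.eval_mul, Polynomial.eval_C, Polynomial.eval_pow,
          Polynomial.eval_X, one_pow, mul_one]
        exact mul_nonneg (G.K_nonneg _ _ _) (ih _ (by have := (G.pos_mem i hi).1; omega) g')
      · simp
    · rw [hB.zero n g (by omega)]
      simp

/-- the constant bounding the squares of the heights -/
noncomputable def HH (G : GapKernel) : ℝ := ∑ i ∈ G.S, (i.2 : ℝ) ^ 2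

lemma HH_nonneg (G : GapKernel) : 0 ≤ HH G := sum_nonneg fun _ _ => sq_nonneg _

lemma le_HH (G : GapKernel) (i : ℕ × ℕ) (hi : i ∈ G.S) : (i.2 : ℝ) ^ 2 ≤ HH G :=
  single_le_sum (f := fun i : ℕ × ℕ => (i.2 : ℝ) ^ 2) (fun _ _ => sq_nonneg _) hi

/-- second moment against the array of squared gaps -/
lemma m2_le {G : GapKernel} {C0 : ℕ} {s : ℕ → ℤ → ℝ} (hs : IsCap C0 s)
    {B : ℕ → ℤ → Polynomial ℝ} (hB : IsSol G s B) {N : ℕ} {b q : ℕ → ℤ → ℝ}
    (hb : IsArr G s 0 N b) (hq : IsArr G (sqSrc G N b) 0 N q) (k : ℕ) :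
    C0 + (G.R + 1) * (k + 1) ≤ N → ∀ g, m2 (B k g) ≤ HH G * k * q k g := by
  have hb0 := arr_nonneg' hs.nonneg hb
  have hq0 := arr_nonneg' (sqSrc_nonneg hb0) hq
  have hH := HH_nonneg G
  induction k using Nat.strong_induction_on with
  | _ k ih =>
    intro hN g
    have hN' : (C0 : ℤ) + (G.R + 1) * (k + 1) ≤ N := by exact_mod_cast hN
    have hRk : (0 : ℤ) ≤ G.R * k := by positivity
    have hN2 : (C0 : ℤ) + G.R * k + G.R ≤ N := by nlinarith
    by_cases hg1 : 1 ≤ g
    swap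
    · rw [hB.zero k g (by omega), hq.zero k g (by omega), m2_zero, mul_zero]
    by_cases hgN : g ≤ (N : ℤ)
    swap
    · rw [sol_supp hs hB k g (by omega), hq.zero k g (by omega), m2_zero, mul_zero]
    rw [hB.step k g hg1, hq.step k g hg1 hgN, m2_add, m2_C, zero_add, m2_sum]
    unfold sqSrc
    rw [← sum_add_distrib, mul_sum]
    refine sum_le_sum fun i hi => ?_
    have hi1 := (G.pos_mem i hi).1
    split_ifs with h
    · rw [m2_sum, ← sum_add_distrib, mul_sum]
      -- termwise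
      have hterm : ∀ g' ∈ Icc (1 : ℤ) N, m2 (Polynomial.C (G.K i g g') *
          Polynomial.X ^ ((i.2 : ℤ) * (g + g')).toNat * B (k - i.1) g') ≤
          HH G * k * (G.K i g g' * ((g : ℝ) + (g' : ℝ)) ^ 2 * b (k - i.1) g' +
            G.K i g g' * GapKernel.wt 0 i g g' * q (k - i.1) g') := by
        intro g' hg'
        rw [mem_Icc] at hg'
        have hw : GapKernel.wt 0 i g g' = 1 := by simp [GapKernel.wt]
        have hbe : b (k - i.1) g' = (B (k - i.1) g').eval 1 := by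
          have := B1 G C0 s hs B hB N 0 b le_rfl hb (k - i.1) (by
            refine le_trans ?_ hN
            have : (k - i.1 : ℕ) + 1 ≤ k + 1 := by omega
            exact Nat.add_le_add_left (Nat.mul_le_mul_left _ this) _) g'
          simpa using this
        have ha : (((((i.2 : ℤ) * (g + g')).toNat : ℕ)) : ℝ) = (i.2 : ℝ) * ((g : ℝ) + (g' : ℝ)) := by
          have h1 : (((((i.2 : ℤ) * (g + g')).toNat : ℕ) : ℤ) : ℝ) =
              (((i.2 : ℤ) * (g + g') : ℤ) : ℝ) := by
            rw [Int.toNat_of_nonneg]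
            have : (0 : ℤ) ≤ g + g' := by omega
            positivity
          rw [Int.cast_natCast] at h1
          rw [h1]
          push_cast
          ring
        rw [mul_assoc, m2_C_mul, hw, hbe]
        set P := B (k - i.1) g' with hP
        set e : ℝ := (g : ℝ) + (g' : ℝ) with he
        have hP0 : 0 ≤ P.eval 1 := sol_eval_nonneg hs hB _ _
        have ha2 : (((((i.2 : ℤ) * (g + g')).toNat : ℕ)) : ℝ) ^ 2 * P.eval 1 ≤
            HH G * (e ^ 2 * P.eval 1) := by
          rw [ha, mul_pow]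
          have := le_HH G i hi
          have h3 : 0 ≤ e ^ 2 * P.eval 1 := mul_nonneg (sq_nonneg _) hP0
          calc (i.2 : ℝ) ^ 2 * e ^ 2 * P.eval 1 = (i.2 : ℝ) ^ 2 * (e ^ 2 * P.eval 1) := by ring
            _ ≤ HH G * (e ^ 2 * P.eval 1) := mul_le_mul_of_nonneg_right this h3
        have hkey : m2 (Polynomial.X ^ ((i.2 : ℤ) * (g + g')).toNat * P) ≤
            HH G * k * (e ^ 2 * P.eval 1 + q (k - i.1) g') := by
          have hq1 := hq0 (k - i.1) g'
          have he2 : 0 ≤ e ^ 2 * P.eval 1 := mul_nonneg (sq_nonneg _) hP0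
          rcases Nat.eq_zero_or_pos (k - i.1) with h0 | h0
          · have hPC : P = Polynomial.C (s 0 g') := by
              rw [hP, h0, hB.step 0 g' hg'.1, sum_eq_zero, add_zero]
              intro i' hi'
              have := (G.pos_mem i' hi').1
              rw [if_neg (by omega)]
            have h1k : (1 : ℝ) ≤ k := by
              have : 1 ≤ k := by omega
              exact_mod_cast this
            rw [m2_X_pow_mul, hPC, m1_C, m2_C, ← hPC, mul_zero, add_zero, add_zero]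
            refine ha2.trans ?_
            have : HH G * (e ^ 2 * P.eval 1) ≤ HH G * k * (e ^ 2 * P.eval 1) := by
              have h3 : 0 ≤ HH G * (e ^ 2 * P.eval 1) := mul_nonneg hH he2
              nlinarith
            have h4 : 0 ≤ HH G * k * q (k - i.1) g' := by positivity
            linarith
          · have h1 := good_ineq (sol_good hs hB (k - i.1) g') (((i.2 : ℤ) * (g + g')).toNat)
              (k - i.1) h0
            rw [← hP] at h1
            have h2 := ih (k - i.1) (by omega) (by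
              refine le_trans ?_ hN
              have : (k - i.1 : ℕ) + 1 ≤ k + 1 := by omega
              exact Nat.add_le_add_left (Nat.mul_le_mul_left _ this) _) g'
            rw [← hP] at h2
            set k' : ℕ := k - i.1 with hk'
            have hk'0 : (0 : ℝ) < k' := by exact_mod_cast h0
            have hk'k : (k' : ℝ) + 1 ≤ k := by
              have : k' + 1 ≤ k := by omega
              exact_mod_cast this
            have h3 : (1 + 1 / (k' : ℝ)) * m2 P ≤ (1 + 1 / (k' : ℝ)) * (HH G * k' * q k' g') :=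
              mul_le_mul_of_nonneg_left h2 (by positivity)
            have h4 : (1 + 1 / (k' : ℝ)) * (HH G * k' * q k' g') =
                ((k' : ℝ) + 1) * (HH G * q k' g') := by
              field_simp
            have h5 : (1 + (k' : ℝ)) * ((((((i.2 : ℤ) * (g + g')).toNat : ℕ)) : ℝ) ^ 2 * P.eval 1) ≤
                ((k' : ℝ) + 1) * (HH G * (e ^ 2 * P.eval 1)) := by
              rw [add_comm (1 : ℝ)]
              exact mul_le_mul_of_nonneg_left ha2 (by positivity)
            have h6 : ((k' : ℝ) + 1) * (HH G * q k' g') + ((k' : ℝ) + 1) * (HH G * (e ^ 2 * P.eval 1))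
                ≤ HH G * k * (e ^ 2 * P.eval 1 + q k' g') := by
              have h7 : 0 ≤ HH G * (e ^ 2 * P.eval 1 + q k' g') := by positivity
              calc ((k' : ℝ) + 1) * (HH G * q k' g') + ((k' : ℝ) + 1) * (HH G * (e ^ 2 * P.eval 1))
                  = ((k' : ℝ) + 1) * (HH G * (e ^ 2 * P.eval 1 + q k' g')) := by ring
                _ ≤ k * (HH G * (e ^ 2 * P.eval 1 + q k' g')) :=
                    mul_le_mul_of_nonneg_right hk'k h7
                _ = _ := by ring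
            linarith
        calc G.K i g g' * m2 (Polynomial.X ^ ((i.2 : ℤ) * (g + g')).toNat * P)
            ≤ G.K i g g' * (HH G * k * (e ^ 2 * P.eval 1 + q (k - i.1) g')) :=
              mul_le_mul_of_nonneg_left hkey (G.K_nonneg _ _ _)
          _ = _ := by ring
      have hnn : ∀ g' : ℤ, 0 ≤ HH G * k * (G.K i g g' * ((g : ℝ) + (g' : ℝ)) ^ 2 * b (k - i.1) g' +
            G.K i g g' * GapKernel.wt 0 i g g' * q (k - i.1) g') := by
        intro g'
        have h1 := G.K_nonneg i g g'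
        have h2 := hb0 (k - i.1) g'
        have h3 := hq0 (k - i.1) g'
        have h4 := wt_nonneg 0 i g g'
        positivity
      calc ∑ g' ∈ Icc (g - G.R) (g + G.R), m2 (Polynomial.C (G.K i g g') *
            Polynomial.X ^ ((i.2 : ℤ) * (g + g')).toNat * B (k - i.1) g')
          = ∑ g' ∈ Icc (g - G.R) (g + G.R) ∩ Icc (1 : ℤ) N, m2 (Polynomial.C (G.K i g g') *
            Polynomial.X ^ ((i.2 : ℤ) * (g + g')).toNat * B (k - i.1) g') := by
            symm
            refine sum_subset inter_subset_left fun g' hg' hg'2 => ?_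
            rw [mem_inter, not_and] at hg'2
            have h5 := hg'2 hg'
            rw [mem_Icc, not_and_or, not_le, not_le] at h5
            rw [mem_Icc] at hg'
            rcases h5 with h5 | h5
            · rw [G.K_out' i g g' (by omega), mul_assoc, m2_C_mul, zero_mul]
            · have h6 : (G.R : ℤ) * ((k - i.1 : ℕ) : ℤ) + G.R ≤ G.R * k := by
                have h2 : (((k - i.1 : ℕ) : ℤ)) + 1 ≤ k := by omega
                calc (G.R : ℤ) * ((k - i.1 : ℕ) : ℤ) + G.R = G.R * (((k - i.1 : ℕ) : ℤ) + 1) := by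
                      ring
                  _ ≤ G.R * k := mul_le_mul_of_nonneg_left h2 (by positivity)
              rw [sol_supp hs hB (k - i.1) g' (by omega), mul_zero, m2_zero]
        _ ≤ ∑ g' ∈ Icc (g - G.R) (g + G.R) ∩ Icc (1 : ℤ) N, HH G * k *
            (G.K i g g' * ((g : ℝ) + (g' : ℝ)) ^ 2 * b (k - i.1) g' +
            G.K i g g' * GapKernel.wt 0 i g g' * q (k - i.1) g') :=
            sum_le_sum fun g' hg' => hterm g' (mem_inter.1 hg').2
        _ ≤ _ := sum_le_sum_of_subset_of_nonneg inter_subset_right fun g' _ _ => hnn g'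
    · rw [m2_zero]
      simp

end Pool.Agent.Gap
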